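import Pool.Agent.Y466.KS.Asm
import Pool.Agent.Y466.KS.Sum
import Pool.Agent.Y466.KS.E8
import Pool.Agent.Y466.KS.SixF
import Pool.Agent.Y466.KS.SixN
import Pool.Agent.Y217.KS.DIAG
import Pool.Agent.Y143.KS.MIL
import Pool.Agent.Y131.KS.GS
import Pool.Agent.Y776.KS.NEC
import Pool.Agent.Results.MP_06cdda_gt.KnotDiagram

/-! # The determinants, signatures and genera of the Seifert matrices of knots

The question of Shinohara asks whether every `n = 4 k + 1 ≥ 5` is the determinant of a knot of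
signature `4`. Here all triples (genus, determinant, signature) which occur for Seifert matrices of
knots are determined; the case `g = 2`, `n = 4 k + 1`, `s = 4` is Shinohara's question. -/

set_option autoImplicit false

namespace Pool.Agent.Results.MP_06cdda_gt.DeterminantSignatureGenus

open Matrix

/-- The signature of a symmetric integer matrix: the number of positive minus the number of
negative squares of the real quadratic form `x ↦ xᵀ A x`. -/
noncomputable def signature {m : ℕ} (A : Matrix (Fin m) (Fin m) ℤ) : ℤ :=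
  (sigPos (A.map (Int.cast : ℤ → ℝ)).toQuadraticForm' : ℤ) -
    (sigNeg (A.map (Int.cast : ℤ → ℝ)).toQuadraticForm' : ℤ)

/-- `(n, s)` is the pair (determinant, signature) of a knot with a Seifert surface of genus `g`:
there is a `2 g × 2 g` integer matrix `V` with `det (V - Vᵀ) = 1` (by a theorem of Seifert these are
the Seifert matrices of knots with a Seifert surface of genus `g`) such that `V + Vᵀ` has
determinant `± n` and signature `s`. -/
def Occurs (g n : ℕ) (s : ℤ) : Prop :=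
  ∃ V : Matrix (Fin (2 * g)) (Fin (2 * g)) ℤ,
    (V - Vᵀ).det = 1 ∧ |(V + Vᵀ).det| = (n : ℤ) ∧ signature (V + Vᵀ) = s

/-- The classification. -/
theorem occurs_iff (g n : ℕ) (s : ℤ) :
    Occurs g n s ↔
      Odd n ∧ |s| ≤ 2 * g ∧ s ≡ n - 1 [ZMOD 4] ∧ (n = 1 → 8 ∣ s) ∧ (g = 0 → n = 1) :=
  Pool.Agent.Y466.KS.classification Pool.Agent.Y466.KS.sum Pool.Agent.Y466.KS.small
    Pool.Agent.Y466.KS.sixf Pool.Agent.Y466.KS.sixn Pool.Agent.Y217.KS.diag
    (Pool.Agent.Y143.KS.mil Pool.Agent.Y131.KS.gs)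
    (Pool.Agent.Y776.KS.nec Pool.Agent.Y217.KS.diag) g n s

open Pool.Agent.Helper562.Sliced in
/-- **Determinant, signature and genus.**

1. (Shinohara's question, for knots.) For every `n = 4 k + 1`, `k ≥ 1`, there is a knot (a knot
   diagram `w`, orientation `o`, Goeritz matrix `A` of its black surface, which is orientable) of
   determinant `n` and signature `4`.
2. (Its form for Seifert matrices, with the genus.) The pair `(4 k + 1, 4)`, `k ≥ 1`, occurs in
   genus `2`.
3. For all `g`, `n`, `s`: the pair `(n, s)` occurs in genus `g` if and only if `n` is odd,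
   `|s| ≤ 2 g`, `s ≡ n - 1` modulo `4`, `8 ∣ s` in case `n = 1`, and `n = 1` in case `g = 0`.
4. The pair `(n, s)` occurs in some genus if and only if `n` is odd, `s ≡ n - 1` modulo `4` and
   `8 ∣ s` in case `n = 1`.
5. If `(n, s)` occurs in some genus then the least genus is `|s| / 2` when `s ≠ 0`. -/
theorem result :
    (∀ k : ℕ, 1 ≤ k → ∃ (w : List Piece) (o : ℕ → ℕ → ℤ) (A : Matrix (Fin 4) (Fin 4) ℤ),
      IsKnot w ∧ IsOrientation w o ∧ IsGoeritzMatrix w A ∧
      |A.det| = 4 * (k : ℤ) + 1 ∧ matrixSignature A - correction w o = 4 ∧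
      ∀ t : Fin w.length, typeTwo (w.get t) (o t) = 0) ∧
    (∀ k : ℕ, 1 ≤ k → Occurs 2 (4 * k + 1) 4) ∧
    (∀ (g n : ℕ) (s : ℤ), Occurs g n s ↔
      Odd n ∧ |s| ≤ 2 * g ∧ s ≡ n - 1 [ZMOD 4] ∧ (n = 1 → 8 ∣ s) ∧ (g = 0 → n = 1)) ∧
    (∀ (n : ℕ) (s : ℤ), (∃ g, Occurs g n s) ↔
      Odd n ∧ s ≡ n - 1 [ZMOD 4] ∧ (n = 1 → 8 ∣ s)) ∧
    (∀ (n : ℕ) (s : ℤ), s ≠ 0 → (∃ g, Occurs g n s) →
      ∃ g : ℕ, 2 * (g : ℤ) = |s| ∧ IsLeast {g | Occurs g n s} g) := by
  refine ⟨fun k hk => Pool.Agent.Results.MP_06cdda_gt.KnotDiagram.result k hk, ?_, occurs_iff,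
    ?_, ?_⟩
  · intro k hk
    rw [occurs_iff]
    refine ⟨⟨2 * k, by ring⟩, by norm_num, ?_, by omega, by omega⟩
    unfold Int.ModEq
    push_cast
    omega
  · intro n s
    constructor
    · rintro ⟨g, hg⟩
      obtain ⟨h1, _, h3, h4, _⟩ := (occurs_iff g n s).1 hg
      exact ⟨h1, h3, h4⟩
    · rintro ⟨h1, h3, h4⟩
      refine ⟨s.natAbs + 1, (occurs_iff _ n s).2 ⟨h1, ?_, h3, h4, by omega⟩⟩
      rw [Int.abs_eq_natAbs]
      omega
  · rintro n s hs ⟨g, hg⟩
    obtain ⟨h1, h2, h3, h4, _⟩ := (occurs_iff g n s).1 hg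
    have h1' := Nat.odd_iff.1 h1
    have h3' : s % 4 = ((n : ℤ) - 1) % 4 := h3
    have hev : s % 2 = 0 := by omega
    refine ⟨s.natAbs / 2, ?_, ?_, ?_⟩
    · rw [Int.abs_eq_natAbs]
      omega
    · refine (occurs_iff _ n s).2 ⟨h1, ?_, h3, h4, ?_⟩
      · rw [Int.abs_eq_natAbs]
        omega
      · omega
    · intro g' hg'
      obtain ⟨_, h2', _⟩ := (occurs_iff g' n s).1 hg'
      rw [Int.abs_eq_natAbs] at h2'
      omega

end Pool.Agent.Results.MP_06cdda_gt.DeterminantSignatureGenus
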